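import Pool.Agent.MP_39ed1d_co.H76.Wind

/-! The gap inside the unit disc (part C3). -/

namespace Pool.Agent.MP_39ed1d_co.H15

open Pool.Agent.MP_39ed1d_co.H76 Filter Metric Topology

lemma three' {ρ r1 r2 r3 : ℝ} (h0 : 0 < ρ) (h1 : ρ < r1) (h12 : r1 < r2) (h23 : r2 < r3) :
    ∃ θ : ℝ, 0 < θ ∧ θ ≤ 1 ∧ ∀ (f : ℂ → ℂ) (α β : ℝ), DifferentiableOn ℂ f (ball 0 r3) → α ≤ β →
      (∀ z, ‖z‖ ≤ ρ → ‖f z‖ ≤ Real.exp α) → (∀ z, ‖z‖ ≤ r2 → ‖f z‖ ≤ Real.exp β) →
      ∀ z, ‖z‖ ≤ r1 → ‖f z‖ ≤ Real.exp (θ * α + (1 - θ) * β) := by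
  have l1 : Real.log ρ < Real.log r1 := Real.log_lt_log h0 h1
  have l2 : Real.log r1 < Real.log r2 := Real.log_lt_log (h0.trans h1) h12
  have hd : 0 < Real.log r2 - Real.log ρ := by linarith
  set t1 := (Real.log r1 - Real.log ρ) / (Real.log r2 - Real.log ρ) with ht1
  have t0 : 0 ≤ t1 := div_nonneg (by linarith) hd.le
  have t2 : t1 < 1 := (div_lt_one hd).2 (by linarith)
  refine ⟨1 - t1, by linarith, by linarith, fun f α β hf hαβ ha hb z hz => ?_⟩
  rcases le_total ‖z‖ ρ with h | h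
  · exact (ha z h).trans (Real.exp_le_exp.2 (by nlinarith))
  · have := three_circles (c := 0) h0 (h1.trans h12) h23 hf (by simpa using ha)
      (by simpa using hb) (z := z) (by simpa using h) (by simpa using hz.trans h12.le)
    rw [sub_zero, ← Real.exp_mul, ← Real.exp_mul, ← Real.exp_add] at this
    refine this.trans (Real.exp_le_exp.2 ?_)
    have : (Real.log ‖z‖ - Real.log ρ) / (Real.log r2 - Real.log ρ) ≤ t1 :=
      div_le_div_of_nonneg_right (by linarith [Real.log_le_log (h0.trans_le h) hz]) hd.le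
    nlinarith

/-- bounded holomorphic functions close to `L` on a small disc -/
def Cls (ρ r2 r3 B η : ℝ) (L G : ℂ → ℂ) : Prop :=
  DifferentiableOn ℂ G (ball 0 r3) ∧ (∀ z, ‖z‖ ≤ r2 → ‖G z‖ ≤ B) ∧
    ∀ z, ‖z‖ ≤ ρ → ‖G z - L z‖ ≤ η

lemma extend {ρ r1 r2 r3 B : ℝ} (h0 : 0 < ρ) (h1 : ρ < r1) (h12 : r1 < r2) (h23 : r2 < r3)
    {L : ℂ → ℂ} (hex : ∀ η : ℝ, 0 < η → ∃ G, Cls ρ r2 r3 B η L G) :
    ∃ H : ℂ → ℂ, DifferentiableOn ℂ H (ball 0 r1) ∧ (∀ z, ‖z‖ ≤ ρ → H z = L z) ∧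
      (∀ z, ‖z‖ ≤ r1 → ‖H z‖ ≤ B) ∧ ∀ ε : ℝ, 0 < ε → ∃ η : ℝ, 0 < η ∧
        ∀ G, Cls ρ r2 r3 B η L G → ∀ z, ‖z‖ ≤ r1 → ‖G z - H z‖ ≤ ε := by
  obtain ⟨θ, hθ0, hθ1, h3⟩ := three' h0 h1 h12 h23
  have hc : ∀ ε : ℝ, 0 < ε → ∃ η : ℝ, 0 < η ∧ ∀ G G', Cls ρ r2 r3 B η L G →
      Cls ρ r2 r3 B η L G' → ∀ z, ‖z‖ ≤ r1 → ‖G z - G' z‖ ≤ ε := by
    intro ε hε
    set α := min (2 * B) ((Real.log ε - (1 - θ) * (2 * B)) / θ) with hα
    refine ⟨Real.exp α / 2, by positivity, fun G G' hG hG' z hz => ?_⟩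
    refine (h3 (fun z => G z - G' z) α (2 * B) (hG.1.sub hG'.1) (min_le_left _ _)
      (fun z hz => ?_) (fun z hz => ?_) z hz).trans ?_
    · have := norm_sub_le_norm_sub_add_norm_sub (G z) (L z) (G' z)
      rw [norm_sub_rev (L z)] at this
      linarith [hG.2.2 z hz, hG'.2.2 z hz]
    · linarith [norm_sub_le (G z) (G' z), hG.2.1 z hz, hG'.2.1 z hz, Real.add_one_le_exp (2 * B)]
    · rw [← Real.exp_log hε]
      refine Real.exp_le_exp.2 ?_
      have := (le_div_iff₀ hθ0).1 (min_le_right (2 * B) ((Real.log ε - (1 - θ) * (2 * B)) / θ))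
      linarith
  choose G hG using fun j : ℕ => hex (1 / ((j : ℝ) + 1)) Nat.one_div_pos_of_nat
  have hev : ∀ η : ℝ, 0 < η → ∀ᶠ j in atTop, Cls ρ r2 r3 B η L (G j) := by
    intro η hη
    filter_upwards [tendsto_one_div_add_atTop_nhds_zero_nat.eventually (ge_mem_nhds hη)] with j hj
    exact ⟨(hG j).1, (hG j).2.1, fun z hz => ((hG j).2.2 z hz).trans hj⟩
  have hlim : ∀ z, ‖z‖ ≤ r1 → Tendsto (fun j => G j z) atTop (𝓝 (limUnder atTop fun j => G j z)) := by
    intro z hz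
    refine CauchySeq.tendsto_limUnder (Metric.cauchySeq_iff'.2 fun ε hε => ?_)
    obtain ⟨η, hη, h⟩ := hc (ε / 2) (half_pos hε)
    obtain ⟨J, hJ⟩ := eventually_atTop.1 (hev η hη)
    refine ⟨J, fun j hj => ?_⟩
    rw [dist_eq_norm]
    linarith [h _ _ (hJ j hj) (hJ J le_rfl) z hz]
  have hclose : ∀ ε : ℝ, 0 < ε → ∃ η : ℝ, 0 < η ∧ ∀ G', Cls ρ r2 r3 B η L G' → ∀ z, ‖z‖ ≤ r1 →
      ‖G' z - limUnder atTop fun j => G j z‖ ≤ ε := by
    intro ε hε
    obtain ⟨η, hη, h⟩ := hc ε hε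
    refine ⟨η, hη, fun G' hG' z hz => ?_⟩
    refine le_of_tendsto (((hlim z hz).const_sub (G' z)).norm) ?_
    filter_upwards [hev η hη] with j hj using h _ _ hG' hj z hz
  refine ⟨fun z => limUnder atTop fun j => G j z, ?_, fun z hz => ?_, fun z hz => ?_, hclose⟩
  · refine TendstoLocallyUniformlyOn.differentiableOn (F := G) (φ := atTop)
      (TendstoUniformlyOn.tendstoLocallyUniformlyOn (Metric.tendstoUniformlyOn_iff.2 fun ε hε => ?_))
      (Eventually.of_forall fun j => (hG j).1.mono (ball_subset_ball (by linarith))) isOpen_ball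
    obtain ⟨η, hη, h⟩ := hclose (ε / 2) (half_pos hε)
    filter_upwards [hev η hη] with j hj z hz
    rw [dist_comm, dist_eq_norm]
    linarith [h _ hj z (mem_ball_zero_iff.1 hz).le]
  · refine tendsto_nhds_unique (hlim z (hz.trans h1.le)) ?_
    rw [tendsto_iff_norm_sub_tendsto_zero]
    exact squeeze_zero (fun _ => norm_nonneg _) (fun j => (hG j).2.2 z hz)
      tendsto_one_div_add_atTop_nhds_zero_nat
  · exact le_of_tendsto' (hlim z hz).norm fun j => (hG j).2.1 z (hz.trans h12.le)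

lemma prod_le {s : Multiset ℂ} {z : ℂ} {A : ℝ} (h : ∀ a ∈ s, ‖z - a‖ ≤ Real.exp A) :
    ‖(s.map fun a => z - a).prod‖ ≤ Real.exp (s.card * A) := by
  induction s using Multiset.induction_on with
  | empty => simp
  | cons a s ih =>
    rw [Multiset.map_cons, Multiset.prod_cons, norm_mul, Multiset.card_cons]
    push_cast
    rw [add_mul, one_mul, Real.exp_add, mul_comm]
    exact mul_le_mul (ih fun b hb => h b (Multiset.mem_cons_of_mem hb))
      (h a (Multiset.mem_cons_self a s)) (norm_nonneg _) (Real.exp_pos _).le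

lemma le_prod {s : Multiset ℂ} {z : ℂ} {A : ℝ} (h : ∀ a ∈ s, Real.exp A ≤ ‖z - a‖) :
    Real.exp (s.card * A) ≤ ‖(s.map fun a => z - a).prod‖ := by
  induction s using Multiset.induction_on with
  | empty => simp
  | cons a s ih =>
    rw [Multiset.map_cons, Multiset.prod_cons, norm_mul, Multiset.card_cons]
    push_cast
    rw [add_mul, one_mul, Real.exp_add, mul_comm]
    exact mul_le_mul (h a (Multiset.mem_cons_self a s))
      (ih fun b hb => h b (Multiset.mem_cons_of_mem hb)) (Real.exp_pos _).le (norm_nonneg _)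

lemma step {r0 r2 r3 η : ℝ} (h0 : 0 < r0) (h02 : r0 < r2) (h23 : r2 < r3) (h3 : r3 < 1)
    (hη : 0 < η) {F L : ℂ → ℂ} {n : ℕ} (hF : Differentiable ℂ F)
    (hFb : ∀ y, ‖y‖ ≤ 1 → ‖F y‖ ≤ Real.exp (n + 1))
    (hL : DifferentiableOn ℂ L (ball 0 r0)) (hL0 : L 0 = 0)
    (hnear : ∀ y, ‖y‖ < r0 → ‖F y - (1 - y) * Complex.exp ((n + 1) * L y)‖ ≤
      1 / 2 * ‖(1 - y) * Complex.exp ((n + 1) * L y)‖)
    (hfew : ∀ (s : Multiset ℂ) (g : ℂ → ℂ), (∀ a ∈ s, ‖a‖ ≤ r3) → Differentiable ℂ g →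
      (∀ y, F y = (s.map fun a => y - a).prod * g y) →
        (s.card : ℝ) ≤ n ∧ 2 * (2 + s.card * Real.log (2 / r0)) ≤ η * (n + 1)) :
    ∃ H, Cls (r0 / 4) r2 r3 (2 * (2 - Real.log (1 - r3)) * r2 / (r3 - r2)) η L H ∧
      ∀ y, ‖y‖ < r3 → ‖F y‖ ≤ Real.exp ((n + 1) * (η + (H y).re)) := by
  have hup : ∀ y, ‖y‖ < r0 → ‖F y‖ ≤ 3 / 2 * ‖(1 - y) * Complex.exp ((n + 1) * L y)‖ := by
    intro y hy
    linarith [hnear y hy, norm_le_norm_sub_add (F y) ((1 - y) * Complex.exp ((n + 1) * L y))]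
  have hlo : ∀ y, ‖y‖ < r0 → 1 / 2 * ‖(1 - y) * Complex.exp ((n + 1) * L y)‖ ≤ ‖F y‖ := by
    intro y hy
    have := norm_sub_norm_le ((1 - y) * Complex.exp ((n + 1) * L y)) (F y)
    rw [norm_sub_rev] at this
    linarith [hnear y hy]
  have hF0 : 1 / 2 ≤ ‖F 0‖ := by simpa [hL0] using hlo 0 (by simpa using h0)
  have hF1 : ‖F 0‖ ≤ 3 / 2 := by simpa [hL0] using hup 0 (by simpa using h0)
  have hr3 : 0 < r3 := by linarith
  obtain ⟨s, g, hs, hg, hFg, hg0⟩ := factor F hF (norm_pos_iff.1 (by linarith)) r3 hr3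
  obtain ⟨hN, hN2⟩ := hfew s g hs hg hFg
  set N : ℝ := (s.card : ℝ) with hNdef
  have hN0 : 0 ≤ N := Nat.cast_nonneg _
  set lam := Real.log (2 / r0) with hlam
  set Lam := -Real.log (1 - r3) with hLam
  have e1 : Real.exp lam = 2 / r0 := Real.exp_log (by positivity)
  have e2 : Real.exp (-lam) = r0 / 2 := by rw [Real.exp_neg, e1, inv_div]
  have e3 : Real.exp (-Lam) = 1 - r3 := by rw [hLam, neg_neg, Real.exp_log (by linarith)]
  have h2r : 2 ≤ 2 / r0 := by rw [le_div_iff₀ h0]; linarith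
  have hlam0 : 0 ≤ lam := Real.log_nonneg (by linarith)
  have hLam0 : 0 ≤ Lam := neg_nonneg.2 (Real.log_nonpos (by linarith) (by linarith))
  have hroot : ∀ a ∈ s, r0 ≤ ‖a‖ := by
    intro a ha
    by_contra hlt
    have hlt := not_le.1 hlt
    have h1 : F a = 0 := by
      rw [hFg, Multiset.prod_eq_zero (Multiset.mem_map.2 ⟨a, ha, sub_self a⟩), zero_mul]
    have h2 := hlo a hlt
    have h4 : (1 - a) * Complex.exp ((n + 1) * L a) ≠ 0 := by
      refine mul_ne_zero (sub_ne_zero.2 fun h => ?_) (Complex.exp_ne_zero _)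
      rw [← h, norm_one] at hlt
      linarith
    rw [h1, norm_zero] at h2
    linarith [norm_pos_iff.2 h4]
  set P : ℂ → ℂ := fun z => (s.map fun a => z - a).prod with hP
  have hFn : ∀ z, ‖F z‖ = ‖P z‖ * ‖g z‖ := fun z => by rw [hFg, norm_mul]
  have pa : ∀ z, ‖z‖ ≤ 1 → ‖P z‖ ≤ Real.exp (N * lam) := fun z hz =>
    prod_le fun a ha => by linarith [norm_sub_le z a, hs a ha]
  have pb : ∀ z, ‖z‖ ≤ r0 / 2 → Real.exp (N * -lam) ≤ ‖P z‖ := fun z hz =>
    le_prod fun a ha => by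
      have := norm_sub_norm_le a z
      rw [norm_sub_rev] at this
      linarith [hroot a ha]
  have pc : ‖P 0‖ ≤ 1 := by
    have := prod_le (s := s) (z := 0) (A := 0) fun a ha => by
      simpa using (hs a ha).trans h3.le
    rwa [mul_zero, Real.exp_zero] at this
  have pd : ∀ z, ‖z‖ = 1 → Real.exp (N * -Lam) ≤ ‖P z‖ := fun z hz =>
    le_prod fun a ha => by linarith [norm_sub_norm_le z a, hs a ha]
  have gdiv : ∀ (z : ℂ) (A : ℝ), Real.exp (N * -A) ≤ ‖P z‖ → ‖g z‖ ≤ Real.exp (N * A) * ‖F z‖ := by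
    intro z A h
    have h1 : Real.exp (N * A) * Real.exp (N * -A) = 1 := by rw [← Real.exp_add]; simp
    rw [hFn, ← mul_assoc]
    refine le_mul_of_one_le_left (norm_nonneg _) ?_
    rw [← h1]
    exact mul_le_mul_of_nonneg_left h (Real.exp_pos _).le
  have g0a : 1 / 2 ≤ ‖g 0‖ := by
    have := hFn 0
    nlinarith [norm_nonneg (g 0)]
  have g0b : ‖g 0‖ ≤ Real.exp (N * lam) * (3 / 2) :=
    (gdiv 0 lam (pb 0 (by simp; positivity))).trans
      (mul_le_mul_of_nonneg_left hF1 (Real.exp_pos _).le)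
  have gb : ∀ z, ‖z‖ ≤ 1 → ‖g z‖ ≤ Real.exp (N * Lam + (n + 1)) := by
    intro z hz
    refine Complex.norm_le_of_forall_mem_frontier_norm_le (U := ball (0 : ℂ) 1) isBounded_ball
      hg.diffContOnCl (fun w hw => ?_) (by rw [closure_ball _ one_ne_zero]; simpa using hz)
    rw [frontier_ball _ one_ne_zero, mem_sphere_zero_iff_norm] at hw
    rw [Real.exp_add]
    exact (gdiv w Lam (pd w hw)).trans
      (mul_le_mul_of_nonneg_left (hFb w hw.le) (Real.exp_pos _).le)
  obtain ⟨h, hh, hh0, hgh⟩ := exists_log (f := g) (c := 0) hr3 hg.differentiableOn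
    fun z hz => hg0 z (mem_ball_zero_iff.1 hz).le
  have hgn : ∀ z, ‖z‖ < r3 → ‖g z‖ = ‖g 0‖ * Real.exp (h z).re := fun z hz => by
    rw [hgh z (mem_ball_zero_iff.2 hz), norm_mul, Complex.norm_exp]
  have hre : ∀ (z : ℂ) (A : ℝ), ‖z‖ < r3 → ‖g z‖ ≤ Real.exp A → (h z).re ≤ 1 + A := by
    intro z A hz hA
    rw [← Real.exp_le_exp, Real.exp_add]
    have h1 := hgn z hz
    have h2 := Real.exp_pos (h z).re
    have h4 := Real.add_one_le_exp 1
    have h5 := Real.exp_pos A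
    nlinarith
  have hn1 : (0 : ℝ) < n + 1 := by positivity
  have hHre : ∀ z, (h z / ((n : ℂ) + 1)).re = (h z).re / (n + 1) := fun z => by
    have : ((n : ℂ) + 1) = ((n + 1 : ℝ) : ℂ) := by push_cast; rfl
    rw [this, Complex.div_ofReal_re]
  have hHd : DifferentiableOn ℂ (fun z => h z / ((n : ℂ) + 1)) (ball 0 r3) := hh.div_const _
  refine ⟨fun z => h z / ((n : ℂ) + 1), ⟨hHd, fun z hz => ?_, fun z hz => ?_⟩, fun y hy => ?_⟩
  · have := Complex.borelCaratheodory_zero (M := 2 + Lam) (R := r3) (z := z) (by linarith) hHd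
      (fun w hw => ?_) hr3 (mem_ball_zero_iff.2 (hz.trans_lt h23)) (by simp [hh0])
    · refine this.trans ?_
      have h1 : 2 - Real.log (1 - r3) = 2 + Lam := by rw [hLam]; ring
      rw [h1]
      exact div_le_div₀ (by have : 0 < r2 := by linarith
                            positivity) (by gcongr) (by linarith) (by linarith)
    · have hw := mem_ball_zero_iff.1 hw
      have := hre w _ hw (gb w (by linarith))
      simp only [Set.mem_ofPred_eq, hHre]
      rw [div_le_iff₀ hn1]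
      nlinarith
  · have := Complex.borelCaratheodory_zero (f := fun z => h z / ((n : ℂ) + 1) - L z) (M := η / 2)
      (R := r0 / 2) (z := z) (half_pos hη)
      ((hHd.mono (ball_subset_ball (by linarith))).sub (hL.mono (ball_subset_ball (by linarith))))
      (fun w hw => ?_) (half_pos h0) (mem_ball_zero_iff.2 (by linarith)) (by simp [hh0, hL0])
    · refine this.trans ?_
      rw [div_le_iff₀ (by linarith)]
      nlinarith
    · have hw := mem_ball_zero_iff.1 hw
      have h1 := hup w (by linarith)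
      have h2 : ‖1 - w‖ ≤ 3 / 2 := by
        have := norm_sub_le 1 w
        rw [norm_one] at this
        linarith
      have h4 : (((n : ℂ) + 1) * L w).re = (n + 1) * (L w).re := by simp
      rw [norm_mul, Complex.norm_exp, h4] at h1
      have h5 := Real.exp_pos ((n + 1) * (L w).re)
      have h6 : ‖F w‖ ≤ Real.exp (1 + (n + 1) * (L w).re) := by
        rw [Real.exp_add]
        have := Real.exp_one_gt_d9
        nlinarith
      have h7 := hre w (N * lam + (1 + (n + 1) * (L w).re)) (by linarith) (by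
        rw [Real.exp_add]
        exact (gdiv w lam (pb w hw.le)).trans (mul_le_mul_of_nonneg_left h6 (Real.exp_pos _).le))
      simp only [Set.mem_ofPred_eq, Complex.sub_re, hHre]
      rw [sub_le_iff_le_add, div_le_iff₀ hn1]
      nlinarith
  · rw [hFn, hgn y hy, hHre, mul_add, mul_div_cancel₀ _ hn1.ne', Real.exp_add, ← mul_assoc]
    refine mul_le_mul_of_nonneg_right ?_ (Real.exp_pos _).le
    calc ‖P y‖ * ‖g 0‖ ≤ Real.exp (N * lam) * (Real.exp (N * lam) * Real.exp 1) := by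
          refine mul_le_mul (pa y (by linarith)) (g0b.trans ?_) (norm_nonneg _) (Real.exp_pos _).le
          gcongr
          linarith [Real.add_one_le_exp 1]
      _ ≤ _ := by
          rw [← Real.exp_add, ← Real.exp_add]
          exact Real.exp_le_exp.2 (by linarith)

theorem gap_of (h1 : Few) (h2 : Near) : Gap := by
  intro r hr
  obtain ⟨r0, K0, γ0, μ, h0, h01, hγ0, hγ1, hμ, hμ0, hnear⟩ := h2
  have hK0 : 0 ≤ K0 := by
    have := ((hnear 0 (by simpa using h0)).2 0)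
    simp only [pow_zero, mul_one] at this
    exact (norm_nonneg _).trans this
  set r' := max r r0 with hr'
  have hr1 : r' < 1 := max_lt hr h01
  have hr0 : r0 ≤ r' := le_max_right _ _
  set d := (1 - r') / 5 with hd
  have hd0 : 0 < d := by rw [hd]; linarith
  have hd1 : r' + 5 * d = 1 := by rw [hd]; ring
  set L : ℂ → ℂ := fun y => Complex.log (μ y) with hL
  have hμ2 : ∀ y, ‖y‖ < r0 → 1 / 2 ≤ ‖μ y‖ := fun y hy => by
    have := norm_sub_norm_le 1 (μ y)
    rw [norm_sub_rev, norm_one] at this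
    linarith [(hnear y hy).1]
  have hLμ : ∀ y, ‖y‖ < r0 → Complex.exp (L y) = μ y := fun y hy =>
    Complex.exp_log (norm_pos_iff.1 (by linarith [hμ2 y hy]))
  have hLd : DifferentiableOn ℂ L (ball 0 r0) := hμ.clog fun y hy => by
    have := Complex.mem_slitPlane_of_norm_lt_one (z := μ y - 1)
      (by linarith [(hnear y (mem_ball_zero_iff.1 hy)).1])
    simpa using this
  have hL0 : L 0 = 0 := by simp [hL, hμ0]
  set C0 := 2 * K0 / (1 - r0) with hC0
  have hC00 : 0 ≤ C0 := div_nonneg (by linarith) (by linarith)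
  have h1y : ∀ (y : ℂ) (t : ℝ), ‖y‖ ≤ t → 1 - t ≤ ‖1 - y‖ := fun y t hy => by
    have := norm_sub_norm_le 1 y
    rw [norm_one] at this
    linarith
  have hk : ∀ (n : ℕ) (y : ℂ), ‖y‖ < r0 → ‖aa y n - (1 - y) * μ y ^ (n + 1)‖ ≤
      C0 * γ0 ^ n * ‖(1 - y) * μ y ^ (n + 1)‖ := by
    intro n y hy
    refine ((hnear y hy).2 n).trans ?_
    rw [norm_mul, norm_pow, pow_succ]
    have e : K0 * γ0 ^ n * ‖μ y‖ ^ n = C0 * γ0 ^ n * ((1 - r0) * (‖μ y‖ ^ n * (1 / 2))) := by
      have : 1 - r0 ≠ 0 := by linarith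
      rw [hC0]; field_simp
    rw [e]
    have := h1y y r0 hy.le
    have := hμ2 y hy
    gcongr
  set B := 2 * (2 - Real.log (1 - (r' + 4 * d))) * (r' + 3 * d) / (r' + 4 * d - (r' + 3 * d))
    with hB
  have hst : ∀ η : ℝ, 0 < η → ∀ᶠ n : ℕ in atTop,
      ∃ H, Cls (r0 / 4) (r' + 3 * d) (r' + 4 * d) B η L H ∧
        ∀ y, ‖y‖ < r' + 4 * d → ‖aa y n‖ ≤ Real.exp ((n + 1) * (η + (H y).re)) := by
    intro η hη
    have hlam : 0 < Real.log (2 / r0) := Real.log_pos (by rw [lt_div_iff₀ h0]; linarith)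
    have ha : ∀ᶠ n : ℕ in atTop, C0 * γ0 ^ n ≤ 1 / 2 := by
      have := (tendsto_pow_atTop_nhds_zero_of_lt_one hγ0.le hγ1).const_mul C0
      rw [mul_zero] at this
      exact this.eventually (ge_mem_nhds (by norm_num))
    have hb : ∀ᶠ n : ℕ in atTop, 8 / η ≤ (n : ℝ) :=
      tendsto_natCast_atTop_atTop.eventually (eventually_ge_atTop _)
    filter_upwards [ha, hb, h1 (r' + 4 * d) 1 (by linarith) one_pos,
      h1 (r' + 4 * d) (η / (4 * Real.log (2 / r0))) (by linarith) (by positivity)]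
      with n ha hb hc he
    refine step h0 (by linarith) (by linarith) (by linarith) hη (differentiable_aa n)
      (fun y hy => norm_aa_le hy n) hLd hL0 (fun y hy => ?_) fun s g hs hg hF => ⟨?_, ?_⟩
    · have e : Complex.exp (((n : ℂ) + 1) * L y) = μ y ^ (n + 1) := by
        rw [← hLμ y hy, ← Complex.exp_nat_mul]; push_cast; rfl
      rw [e]
      exact (hk n y hy).trans (mul_le_mul_of_nonneg_right ha (norm_nonneg _))
    · simpa using hc s g hs hg hF
    · have h3 := he s g hs hg hF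
      rw [div_mul_eq_mul_div, le_div_iff₀ (by positivity)] at h3
      rw [div_le_iff₀ hη] at hb
      nlinarith
  obtain ⟨H, hHd, hHL, hHB, hcl⟩ := extend (r1 := r' + 2 * d) (by positivity : 0 < r0 / 4)
    (by linarith) (by linarith) (by linarith)
    (fun η hη => (hst η hη).exists.elim fun _ h => h.imp fun _ h => h.1)
  obtain ⟨θ, hθ0, hθ1, h3⟩ := three' (ρ := r0 / 4) (r1 := r') (r2 := r' + d) (r3 := r' + 2 * d)
    (by positivity) (by linarith) (by linarith) (by linarith)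
  have hlγ : Real.log γ0 < 0 := Real.log_neg hγ0 hγ1
  set ε := -(θ * Real.log γ0) / 4 with hε
  have hε0 : 0 < ε := by rw [hε]; nlinarith
  obtain ⟨η, hη, hcl⟩ := hcl ε hε0
  have hm : ∀ (n : ℕ) (y : ℂ), ‖Complex.exp (H y) ^ n‖ = Real.exp (n * (H y).re) := fun n y => by
    rw [norm_pow, Complex.norm_exp, Real.exp_nat_mul]
  have hreB : ∀ y, ‖y‖ ≤ r' → -B ≤ (H y).re ∧ (H y).re ≤ B := fun y hy =>
    abs_le.1 ((Complex.abs_re_le_norm _).trans (hHB y (by linarith)))
  set β0 := C0 + 1 / d + 1 with hβ0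
  have hdi : 0 < 1 / d := by positivity
  have hbig : ∀ᶠ n : ℕ in atTop, ∀ y, ‖y‖ ≤ r' →
      ‖aa y n / ((1 - y) * Complex.exp (H y) ^ (n + 1)) - 1‖ ≤
        Real.exp (β0 + 2 * ε) * Real.exp (-(2 * ε)) ^ n := by
    filter_upwards [hst (min η ε) (lt_min hη hε0)] with n ⟨G, hG, hGb⟩ y hy
    have hG' := hcl G ⟨hG.1, hG.2.1, fun z hz => (hG.2.2 z hz).trans (min_le_left _ _)⟩
    have hne : ∀ z : ℂ, ‖z‖ ≤ r' + 2 * d → (1 - z) * Complex.exp (H z) ^ (n + 1) ≠ 0 :=
      fun z hz => mul_ne_zero (norm_pos_iff.1 (by linarith [h1y z _ hz]))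
        (pow_ne_zero _ (Complex.exp_ne_zero _))
    have hn0 : (0 : ℝ) ≤ n := Nat.cast_nonneg n
    refine (h3 (fun y => aa y n / ((1 - y) * Complex.exp (H y) ^ (n + 1)) - 1)
      (C0 + n * Real.log γ0) (β0 + (n + 1) * (2 * ε)) ?_ (by nlinarith) (fun z hz => ?_)
      (fun z hz => ?_) y hy).trans ?_
    · refine DifferentiableOn.sub_const ((differentiable_aa n).differentiableOn.div ?_
        fun z hz => hne z (mem_ball_zero_iff.1 hz).le) _
      exact ((differentiableOn_const _).sub differentiableOn_id).mul (hHd.cexp.pow _)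
    · have hz' : ‖z‖ < r0 := by linarith
      have h4 := hne z (by linarith)
      rw [div_sub_one h4, norm_div, div_le_iff₀ (norm_pos_iff.2 h4), hHL z hz, hLμ z hz']
      refine (hk n z hz').trans (mul_le_mul_of_nonneg_right ?_ (norm_nonneg _))
      rw [Real.exp_add, Real.exp_nat_mul, Real.exp_log hγ0]
      gcongr
      linarith [Real.add_one_le_exp C0]
    · have h4 := hGb z (by linarith)
      have h5 : (G z).re ≤ ε + (H z).re := by
        have := (Complex.re_le_norm (G z - H z)).trans (hG' z (by linarith))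
        rw [Complex.sub_re] at this
        linarith
      have h6 : ‖aa z n‖ ≤ Real.exp ((n + 1) * (2 * ε)) * Real.exp ((n + 1) * (H z).re) := by
        rw [← Real.exp_add]
        refine h4.trans (Real.exp_le_exp.2 ?_)
        have := min_le_right η ε
        nlinarith
      have h7 : d ≤ ‖1 - z‖ := by linarith [h1y z _ hz]
      have h8 : 1 ≤ Real.exp ((n + 1) * (2 * ε)) := Real.one_le_exp (by positivity)
      have h9 : ‖aa z n / ((1 - z) * Complex.exp (H z) ^ (n + 1))‖ ≤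
          1 / d * Real.exp ((n + 1) * (2 * ε)) := by
        rw [norm_div, norm_mul, hm, div_le_iff₀ (mul_pos (by linarith) (Real.exp_pos _))]
        push_cast
        refine h6.trans ?_
        have h10 : 1 ≤ 1 / d * ‖1 - z‖ := by
          rw [div_mul_eq_mul_div, le_div_iff₀ hd0]; linarith
        have h11 : 0 < Real.exp ((n + 1) * (2 * ε)) * Real.exp ((n + 1) * (H z).re) := by positivity
        nlinarith
      refine (norm_sub_le _ _).trans ?_
      rw [norm_one, Real.exp_add]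
      have := Real.add_one_le_exp β0
      nlinarith
    · rw [← Real.exp_nat_mul, ← Real.exp_add]
      refine Real.exp_le_exp.2 ?_
      have e : θ * Real.log γ0 = -4 * ε := by rw [hε]; ring
      have h4 : θ * C0 ≤ θ * β0 := by gcongr; linarith
      have h5 : 0 ≤ θ * ((n + 1) * (2 * ε)) := by positivity
      have h6 : θ * (n * Real.log γ0) = -4 * ε * n := by rw [← e]; ring
      nlinarith
  obtain ⟨n0, hn0⟩ := eventually_atTop.1 hbig
  set γ := Real.exp (-(2 * ε)) with hγ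
  have hγp : 0 < γ := Real.exp_pos _
  set t : ℕ → ℝ := fun n =>
    (Real.exp (n + 1) + 2 * Real.exp ((n + 1) * B)) / (γ ^ n * Real.exp (-B) ^ n) with ht
  have ht0 : ∀ n, 0 ≤ t n := fun n => by simp only [ht]; positivity
  have hS : 0 ≤ ∑ n ∈ Finset.range n0, t n := Finset.sum_nonneg fun n _ => ht0 n
  have hE : 0 < 2 * Real.exp (β0 + 2 * ε) * Real.exp B := by positivity
  refine ⟨Real.exp B + 2 * Real.exp (β0 + 2 * ε) * Real.exp B + ∑ n ∈ Finset.range n0, t n, γ,
    Real.exp (-B), Real.exp_pos _, hγp, Real.exp_lt_one_iff.2 (by linarith), fun y hy => ?_⟩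
  have hy' : ‖y‖ ≤ r' := hy.trans (le_max_left _ _)
  obtain ⟨hb1, hb2⟩ := hreB y hy'
  have hm1 : Real.exp (-B) ≤ ‖Complex.exp (H y)‖ := by
    rw [Complex.norm_exp]; exact Real.exp_le_exp.2 hb1
  have hm2 : ‖Complex.exp (H y)‖ ≤ Real.exp B := by
    rw [Complex.norm_exp]; exact Real.exp_le_exp.2 hb2
  have h2y : ‖1 - y‖ ≤ 2 := by
    have := norm_sub_le 1 y
    rw [norm_one] at this
    linarith
  refine ⟨Complex.exp (H y), hm1, by linarith, fun n => ?_⟩
  have hBp := Real.exp_pos B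
  rcases lt_or_ge n n0 with hn | hn
  · have h4 : t n ≤ ∑ n ∈ Finset.range n0, t n :=
      Finset.single_le_sum (fun n _ => ht0 n) (Finset.mem_range.2 hn)
    have h5 : ‖aa y n - (1 - y) * Complex.exp (H y) ^ (n + 1)‖ ≤
        Real.exp (n + 1) + 2 * Real.exp ((n + 1) * B) := by
      refine (norm_sub_le _ _).trans (add_le_add (norm_aa_le (by linarith) n) ?_)
      rw [norm_mul, hm]
      push_cast
      gcongr
    refine h5.trans ?_
    calc _ = t n * γ ^ n * Real.exp (-B) ^ n := by simp only [ht]; field_simp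
      _ ≤ _ := by gcongr; linarith
  · have hne : (1 - y) * Complex.exp (H y) ^ (n + 1) ≠ 0 :=
      mul_ne_zero (norm_pos_iff.1 (by linarith [h1y y _ hy']))
        (pow_ne_zero _ (Complex.exp_ne_zero _))
    have h4 := hn0 n hn y hy'
    rw [div_sub_one hne, norm_div, div_le_iff₀ (norm_pos_iff.2 hne), norm_mul, norm_pow,
      pow_succ ‖Complex.exp (H y)‖] at h4
    refine h4.trans ?_
    calc _ ≤ Real.exp (β0 + 2 * ε) * γ ^ n * (2 * (‖Complex.exp (H y)‖ ^ n * Real.exp B)) := by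
          gcongr
      _ = 2 * Real.exp (β0 + 2 * ε) * Real.exp B * γ ^ n * ‖Complex.exp (H y)‖ ^ n := by ring
      _ ≤ _ := by gcongr; linarith

end Pool.Agent.MP_39ed1d_co.H15
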