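import Pool.Agent.MP_39ed1d_co.H76.Defs

/-! The real part of the model series at angles that are not small. -/

namespace Pool.Agent.MP_39ed1d_co.H15

open Pool.Agent.MP_39ed1d_co.H76 Filter

/-- the polynomial in the second derivative -/
noncomputable def qq (s : ℝ) : ℝ := (21 / 20 * s - s ^ 3 / 8 - 1 / 2) ^ 2 + 1 / 2 - s ^ 3 / 4

/-- the rescaled coefficients -/
noncomputable def dl (v x : ℝ) : ℝ := om (x * v ^ 2) * (√x)⁻¹

theorem hasDerivAt_isqrt {x : ℝ} (hx : 0 < x) :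
    HasDerivAt (fun y => (√y)⁻¹) (-((√x)⁻¹ / (2 * x))) x := by
  have h := Real.sqrt_pos.2 hx
  refine ((Real.hasDerivAt_sqrt hx.ne').inv h.ne').congr_deriv ?_
  rw [Real.sq_sqrt hx.le]
  field_simp

theorem hasDerivAt_om (h x : ℝ) : HasDerivAt (fun y => om (y * h))
    (om (x * h) * (21 / 20 * h - x ^ 2 * h ^ 3 / 8)) x := by
  have h1 : HasDerivAt (fun y : ℝ => y * h) h x := hasDerivAt_mul_const h
  refine (((h1.const_mul (21 / 20)).sub ((h1.pow 3).div_const 24)).exp).congr_deriv ?_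
  simp only [om, Pi.sub_apply, Pi.pow_apply]
  congr 1
  norm_num
  ring

/-- second differences from second derivatives -/
theorem sec_diff (v c K : ℝ) {m : ℝ} (hm : 1 < m) (H : ∀ x, m - 1 < x → x < m + 1 →
    0 ≤ (√x)⁻¹ / x ^ 2 * (om (x * v ^ 2) * qq (x * v ^ 2) - 3 / 4 * c) + K) :
    c * ((√(m - 1))⁻¹ - 2 * (√m)⁻¹ + (√(m + 1))⁻¹) - K ≤
      dl v (m - 1) - 2 * dl v m + dl v (m + 1) := by
  set h := v ^ 2
  have d1 : ∀ x : ℝ, 0 < x → HasDerivAt (fun y => (om (y * h) - c) * (√y)⁻¹ + K / 2 * (y * y))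
      ((om (x * h) * (21 / 20 * h - x ^ 2 * h ^ 3 / 8 - x⁻¹ / 2) + c * x⁻¹ / 2) * (√x)⁻¹ + K * x)
      x := fun x hx => by
    refine ((((hasDerivAt_om h x).sub_const c).mul (hasDerivAt_isqrt hx)).add
      (((hasDerivAt_id' x).mul (hasDerivAt_id' x)).const_mul (K / 2))).congr_deriv ?_
    field_simp
    ring
  have d2 : ∀ x : ℝ, 0 < x → HasDerivAt (fun x =>
      (om (x * h) * (21 / 20 * h - x ^ 2 * h ^ 3 / 8 - x⁻¹ / 2) + c * x⁻¹ / 2) * (√x)⁻¹ + K * x)
      ((√x)⁻¹ / x ^ 2 * (om (x * h) * qq (x * h) - 3 / 4 * c) + K) x := fun x hx => by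
    have hi := hasDerivAt_inv hx.ne'
    refine (((((hasDerivAt_om h x).mul (((((hasDerivAt_pow 2 x).mul_const (h ^ 3)).div_const
      8).const_sub (21 / 20 * h)).sub (hi.div_const 2))).add ((hi.const_mul c).div_const 2)).mul
      (hasDerivAt_isqrt hx)).add ((hasDerivAt_id' x).const_mul K)).congr_deriv ?_
    simp only [Pi.sub_apply, Pi.add_apply, Pi.mul_apply, qq]
    norm_num
    field_simp
    ring
  have hc := convexOn_of_hasDerivWithinAt2_nonneg (convex_Icc (m - 1) (m + 1))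
    (fun x hx => (d1 x (by linarith [hx.1])).continuousAt.continuousWithinAt)
    (fun x hx => (d1 x (by linarith [(interior_subset hx).1])).hasDerivWithinAt)
    (fun x hx => (d2 x (by linarith [(interior_subset hx).1])).hasDerivWithinAt)
    (fun x hx => by rw [interior_Icc] at hx; exact H x hx.1 hx.2)
  have h2 := hc.2
  have := @h2 (m - 1) ⟨le_rfl, by linarith⟩ (m + 1) ⟨by linarith, le_rfl⟩
    (1 / 2) (1 / 2) (by norm_num) (by norm_num) (by norm_num)
  simp only [smul_eq_mul] at this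
  rw [show 1 / 2 * (m - 1) + 1 / 2 * (m + 1) = m by ring] at this
  unfold dl
  nlinarith

theorem qq_nonneg {s : ℝ} (h0 : 0 ≤ s) (h : s ≤ 3 / 2 ∨ 4 ≤ s) : 0 ≤ qq s := by
  unfold qq
  rcases h with h | h
  · rcases le_total s (5 / 4) with h1 | h1
    · have : s ^ 3 ≤ (5 / 4) ^ 3 := by gcongr
      nlinarith [sq_nonneg (21 / 20 * s - s ^ 3 / 8 - 1 / 2)]
    · have h2 : s ^ 2 ≤ (3 / 2) ^ 2 := by gcongr
      rcases le_total s (7 / 5) with h3 | h3
      · have h4 : s ^ 3 ≤ (7 / 5) ^ 3 := by gcongr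
        have h5 : 9 / 20 ≤ 21 / 20 * s - s ^ 3 / 8 - 1 / 2 := by nlinarith
        nlinarith
      · have h4 : s ^ 3 ≤ (3 / 2) ^ 3 := by gcongr
        have h5 : 3 / 5 ≤ 21 / 20 * s - s ^ 3 / 8 - 1 / 2 := by
          nlinarith [mul_nonneg (sub_nonneg.2 h3) (sub_nonneg.2 h)]
        nlinarith
  · have h1 : 4 ^ 2 ≤ s ^ 2 := by gcongr
    have h2 : 4 ^ 3 ≤ s ^ 3 := by gcongr
    have h3 : 16 * s ≤ s ^ 3 := by nlinarith
    have h4 : 19 / 320 * s ^ 3 + 1 / 2 ≤ -(21 / 20 * s - s ^ 3 / 8 - 1 / 2) := by linarith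
    generalize s ^ 3 = c at *
    nlinarith

theorem om_qq {s : ℝ} (h0 : 0 ≤ s) (h : s ≤ 47 / 200) : 27 / 40 ≤ om s * qq s := by
  have h1 : s ^ 2 ≤ (47 / 200) ^ 2 := by gcongr
  have h2 : s ^ 3 ≤ 553 / 10000 * s := by nlinarith
  have h3 : 1 + 1047 / 1000 * s ≤ om s := by
    have := Real.add_one_le_exp (21 / 20 * s - s ^ 3 / 24)
    unfold om
    linarith
  have h4 : 3 / 4 - 1064 / 1000 * s + 11 / 10 * s ^ 2 ≤ qq s := by
    unfold qq
    have h5 : 0 ≤ s ^ 3 := by positivity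
    nlinarith [mul_nonneg h5 (by linarith : 0 ≤ 1 / 2 - 21 / 20 * s), sq_nonneg (s ^ 3)]
  have h6 : 0 ≤ 3 / 4 - 1064 / 1000 * s + 11 / 10 * s ^ 2 := by nlinarith
  refine le_trans ?_ (mul_le_mul h3 h4 h6 (om_pos s).le)
  nlinarith [pow_nonneg h0 3]

theorem om_sqrt {s : ℝ} (h0 : 0 ≤ s) : om s * √s ≤ 1324 / 100 := by
  have h1 : √s ≤ 17321 / 10000 * ((s - 3) / 6 + 1) :=
    Real.sqrt_le_iff.2 ⟨by linarith, by nlinarith [sq_nonneg (s - 3), sq_nonneg (s + 3)]⟩
  have h2 := Real.add_one_le_exp ((s - 3) / 6)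
  have h3 : om s * Real.exp ((s - 3) / 6) ≤ Real.exp 1 * Real.exp 1 * Real.exp (32 / 1000) := by
    rw [om, ← Real.exp_add, ← Real.exp_add, ← Real.exp_add]
    refine Real.exp_le_exp.2 ?_
    nlinarith [mul_nonneg (sq_nonneg (s - 312 / 100)) (by linarith : 0 ≤ s + 624 / 100)]
  have h4 := Real.exp_one_lt_d9
  have h5 := Real.exp_bound_div_one_sub_of_interval' (x := 32 / 1000) (by norm_num) (by norm_num)
  have h6 : Real.exp 1 * Real.exp 1 * Real.exp (32 / 1000) ≤
      2.7182818286 * 2.7182818286 * (1 / (1 - 32 / 1000)) := by gcongr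
  have h7 := om_pos s
  norm_num at h6
  nlinarith

theorem isqrt_sec {m : ℝ} (hm : 1 < m) : 3 / 2 * (√(m + 1) - √m) ≤
    m ^ 2 * ((√(m - 1))⁻¹ - 2 * (√m)⁻¹ + (√(m + 1))⁻¹) := by
  have ha := Real.sq_sqrt (by linarith : 0 ≤ m + 1)
  have hb := Real.sq_sqrt (by linarith : 0 ≤ m - 1)
  have hr := Real.sq_sqrt (by linarith : 0 ≤ m)
  have ha0 := Real.sqrt_pos.2 (by linarith : 0 < m + 1)
  have hb0 := Real.sqrt_pos.2 (by linarith : 0 < m - 1)
  have hr0 := Real.sqrt_pos.2 (by linarith : 0 < m)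
  generalize √(m + 1) = a at *
  generalize √(m - 1) = b at *
  generalize √m = r at *
  subst hr
  have h1 : a + b ≤ 2 * r := by nlinarith [sq_nonneg (a - b)]
  have h2 : a * b ≤ r ^ 2 := by nlinarith [sq_nonneg (a - b)]
  have h3 : b ≤ r := by nlinarith
  have h3' : r ≤ a := by nlinarith
  have h4 : 1 ≤ r * (a - b) := by nlinarith
  have e1 : b⁻¹ - r⁻¹ = 1 / (b * r * (b + r)) := by field_simp; linarith
  have e2 : r⁻¹ - a⁻¹ = 1 / (a * r * (a + r)) := by field_simp; linarith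
  have e3 : a - r = 1 / (a + r) := by field_simp; linarith
  have e4 : b⁻¹ - 2 * r⁻¹ + a⁻¹ = (2 + r * (a - b)) / (a * b * (b + r) * (r * (a + r))) := by
    rw [show b⁻¹ - 2 * r⁻¹ + a⁻¹ = (b⁻¹ - r⁻¹) - (r⁻¹ - a⁻¹) by ring, e1, e2]
    field_simp
    linarith
  rw [e3, e4]
  calc 3 / 2 * (1 / (a + r)) = (r ^ 2) ^ 2 * (3 / (r ^ 2 * (r + r) * (r * (a + r)))) := by
        field_simp; ring
    _ ≤ _ := by gcongr; linarith

theorem one_sub_cos {x : ℝ} (h0 : 0 ≤ x) (h : x ≤ 2) : x ^ 2 / 3 ≤ 1 - Real.cos x := by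
  have h1 := Real.sin_ge_sub_cube (x := x / 2) (by linarith)
  have h2 : x ^ 2 ≤ 2 ^ 2 := by gcongr
  have h3 : 5 / 12 * x ≤ Real.sin (x / 2) := by nlinarith
  have h4 := Real.cos_two_mul (x / 2)
  have h5 := Real.sin_sq_add_cos_sq (x / 2)
  rw [show 2 * (x / 2) = x by ring] at h4
  nlinarith

/-- the potential of the telescoping bound -/
noncomputable def WW (v α : ℝ) (m : ℕ) : ℝ :=
  9 / 20 * α ^ 2 * √((min m (⌊2 / α⌋₊ + 1) : ℕ) : ℝ) -
    662 / 100 * v ^ 5 * ((min (max m ⌊3 / 2 / v ^ 2⌋₊) (⌊4 / v ^ 2⌋₊ + 2) : ℕ) : ℝ)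

theorem term_ge {v : ℝ} (hv : 0 < v) (hv1 : v ≤ 1 / 10) {α : ℝ} (h1 : 89 / 10 * v ^ 2 ≤ α)
    {m : ℕ} (hm : 2 ≤ m) : WW v α (m + 1) - WW v α m ≤
      (dl v (m - 1) - 2 * dl v m + dl v (m + 1)) * (1 - Real.cos (m * α)) := by
  have hh : 0 < v ^ 2 := by positivity
  have hh1 : v ^ 2 ≤ (1 / 10) ^ 2 := by gcongr
  have ha : 0 < α := by linarith
  have hm' : (2 : ℝ) ≤ m := by exact_mod_cast hm
  have u0 : 0 ≤ 1 - Real.cos (m * α) := by linarith [Real.cos_le_one (m * α)]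
  have u2 : 1 - Real.cos (m * α) ≤ 2 := by linarith [Real.neg_one_le_cos (m * α)]
  have hv5 : 0 < v ^ 5 := by positivity
  set n := ⌊2 / α⌋₊
  set A := ⌊3 / 2 / v ^ 2⌋₊
  set B := ⌊4 / v ^ 2⌋₊
  have hAB : A ≤ B := Nat.floor_le_floor (by gcongr; norm_num)
  unfold WW
  by_cases hn : m ≤ n
  · have e1 : (m : ℝ) * α ≤ 2 := by
      have := (Nat.le_floor_iff (by positivity)).1 hn
      rwa [le_div_iff₀ ha] at this
    have e2 := sec_diff v (9 / 10) 0 (m := m) (by linarith) fun x hx hx' => by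
      have hx0 : 0 < x := by linarith
      have : x * v ^ 2 ≤ 47 / 200 := by nlinarith
      have := om_qq (by positivity) this
      have : 0 ≤ om (x * v ^ 2) * qq (x * v ^ 2) - 3 / 4 * (9 / 10) := by linarith
      positivity
    have e3 := isqrt_sec (m := m) (by linarith)
    have e4 := one_sub_cos (by positivity) e1
    have e5 : √(m : ℝ) ≤ √(m + 1) := Real.sqrt_le_sqrt (by linarith)
    have e6 : ((min (max m A) (B + 2) : ℕ) : ℝ) ≤ ((min (max (m + 1) A) (B + 2) : ℕ) : ℝ) := by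
      exact_mod_cast (by omega)
    rw [min_eq_left (by omega : m + 1 ≤ n + 1), min_eq_left (by omega : m ≤ n + 1)]
    push_cast at e6 ⊢
    set E := (√(m - 1 : ℝ))⁻¹ - 2 * (√(m : ℝ))⁻¹ + (√(m + 1 : ℝ))⁻¹
    have e7 : 0 ≤ E := by
      by_contra hE
      nlinarith [mul_pos (pow_pos (by linarith : (0 : ℝ) < m) 2) (neg_pos.2 (not_le.1 hE))]
    have e8 := mul_le_mul (le_trans (by linarith) e2 : 9 / 10 * E ≤ _) e4 (by positivity)
      (by linarith)
    have e9 := mul_le_mul_of_nonneg_left e3 (sq_nonneg α)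
    nlinarith
  · rw [min_eq_right (by omega : n + 1 ≤ m + 1), min_eq_right (by omega : n + 1 ≤ m)]
    by_cases hin : A ≤ m ∧ m < B + 2
    · have e2 := sec_diff v 0 (331 / 100 * v ^ 5) (m := m) (by linarith) fun x hx hx' => by
        have hx0 : 0 < x := by linarith
        have hs := Real.sqrt_pos.2 hx0
        have e1 := om_sqrt (s := x * v ^ 2) (by positivity)
        rw [Real.sqrt_mul hx0.le, Real.sqrt_sq hv.le] at e1
        have e3 : -((x * v ^ 2) ^ 3 / 4) ≤ qq (x * v ^ 2) := by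
          unfold qq
          nlinarith [sq_nonneg (21 / 20 * (x * v ^ 2) - (x * v ^ 2) ^ 3 / 8 - 1 / 2)]
        have e4 := mul_le_mul_of_nonneg_left
          (mul_le_mul_of_nonneg_left e3 (om_pos (x * v ^ 2)).le)
          (by positivity : 0 ≤ (√x)⁻¹ / x ^ 2)
        have e5 : (√x)⁻¹ / x ^ 2 * (om (x * v ^ 2) * -((x * v ^ 2) ^ 3 / 4)) =
            -(om (x * v ^ 2) * (√x * v) * v ^ 5 / 4) := by
          field_simp
          rw [Real.sq_sqrt hx0.le]
        rw [mul_zero, sub_zero]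
        nlinarith
      rw [max_eq_left (by omega : A ≤ m + 1), max_eq_left hin.1,
        min_eq_left (by omega : m + 1 ≤ B + 2), min_eq_left hin.2.le]
      push_cast
      nlinarith
    · have e2 := sec_diff v 0 0 (m := m) (by linarith) fun x hx hx' => by
        have hx0 : 0 < x := by linarith
        have : 0 ≤ qq (x * v ^ 2) := by
          refine qq_nonneg (by positivity) ?_
          rcases not_and_or.1 hin with h | h
          · have := (Nat.le_floor_iff (by positivity)).1 (by omega : m + 1 ≤ A)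
            rw [le_div_iff₀ hh] at this
            push_cast at this
            exact Or.inl (by nlinarith)
          · have e1 := Nat.lt_floor_add_one (4 / v ^ 2)
            have e3 : ((B + 2 : ℕ) : ℝ) ≤ m := by exact_mod_cast not_lt.1 h
            rw [div_lt_iff₀ hh] at e1
            push_cast at e3
            exact Or.inr (by nlinarith)
        have := om_pos (x * v ^ 2)
        rw [mul_zero, sub_zero, add_zero]
        positivity
      rw [(by omega : min (max (m + 1) A) (B + 2) = min (max m A) (B + 2))]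
      nlinarith

theorem sum_ge {v : ℝ} (hv : 0 < v) (hv1 : v ≤ 1 / 10) {α : ℝ} (h1 : 89 / 10 * v ^ 2 ≤ α)
    (M : ℕ) : -(2 * dl v 1 - dl v 2) * (1 - Real.cos α) + (WW v α (M + 2) - WW v α 2) +
      (dl v (M + 1) * (1 - Real.cos ((M + 2) * α)) - dl v (M + 2) * (1 - Real.cos ((M + 1) * α))) ≤
      2 * (1 - Real.cos α) * ∑ N ∈ Finset.range (M + 2), dl v N * Real.cos (N * α) := by
  induction M with
  | zero =>
    have : dl v 0 = 0 := by simp [dl]
    simp only [Finset.sum_range_succ, Finset.range_zero, Finset.sum_empty]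
    norm_num [this, Real.cos_two_mul]
    exact le_of_eq (by ring)
  | succ M ih =>
    have h := term_ge hv hv1 h1 (m := M + 2) (by omega)
    rw [Finset.sum_range_succ]
    push_cast at h ⊢
    have e1 : Real.cos ((M + 1 + 2) * α) + Real.cos ((M + 1) * α) =
        2 * Real.cos α * Real.cos ((M + 2) * α) := by
      rw [show ((M : ℝ) + 1 + 2) * α = (M + 2) * α + α by ring,
        show ((M : ℝ) + 1) * α = (M + 2) * α - α by ring, Real.cos_add, Real.cos_sub]
      ring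
    rw [show (M : ℝ) + 2 - 1 = M + 1 by ring, show (M : ℝ) + 2 + 1 = M + 1 + 2 by ring] at h
    rw [show (M : ℝ) + 1 + 1 = M + 2 by ring]
    have e2 := congrArg (dl v (M + 2) * ·) e1
    linarith

theorem ab_eq (v : ℝ) (N : ℕ) : √(2 * Real.pi) * ab v N = dl v N := by
  have : 0 < √(2 * Real.pi) := Real.sqrt_pos.2 (by positivity)
  rw [ab, dl, Real.sqrt_mul (x := 2 * Real.pi) (by positivity) N, div_eq_mul_inv, mul_inv]
  field_simp

theorem large {v : ℝ} (hv : 0 < v) (hv1 : v ≤ 1 / 10) {α : ℝ} (h1 : 89 / 10 * v ^ 2 ≤ α)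
    (h2 : α ≤ Real.pi) : -(2 / 3) < (TT v α).re := by
  have hh : 0 < v ^ 2 := by positivity
  have hh1 : v ^ 2 ≤ (1 / 10) ^ 2 := by gcongr
  have ha : 0 < α := by linarith
  have hs : Summable fun N : ℕ => (ab v N : ℂ) * Complex.exp (N * (α * Complex.I)) := by
    refine Summable.of_norm ((summable_ab hv).congr fun N => ?_)
    rw [norm_mul, show (N : ℂ) * (α * Complex.I) = ((N * α : ℝ) : ℂ) * Complex.I by push_cast; ring,
      Complex.norm_exp_ofReal_mul_I, Complex.norm_real, Real.norm_of_nonneg (ab_nonneg v N), mul_one]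
  have hS : HasSum (fun N : ℕ => dl v N * Real.cos (N * α)) (√(2 * Real.pi) * (TT v α).re) := by
    have e : ∀ N : ℕ, dl v N * Real.cos (N * α) =
        √(2 * Real.pi) * ((ab v N : ℂ) * Complex.exp (N * (α * Complex.I))).re := fun N => by
      rw [show (N : ℂ) * (α * Complex.I) = ((N * α : ℝ) : ℂ) * Complex.I by push_cast; ring,
        Complex.re_ofReal_mul, Complex.exp_ofReal_mul_I_re, ← mul_assoc, ab_eq]
    simp only [e]
    exact (Complex.hasSum_re hs.hasSum).mul_left (√(2 * Real.pi))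
  have dn : ∀ N : ℕ, 0 ≤ dl v N := fun N => mul_nonneg (om_pos _).le (by positivity)
  have t1 := (hS.tendsto_sum_nat.comp (tendsto_add_atTop_nat 2)).const_mul (2 * (1 - Real.cos α))
  have t2 := (((summable_ab hv).tendsto_atTop_zero.comp (tendsto_add_atTop_nat 2)).const_mul
    (√(2 * Real.pi))).const_mul 2
  set n := ⌊2 / α⌋₊ with hn
  set A := ⌊3 / 2 / v ^ 2⌋₊ with hA
  set B := ⌊4 / v ^ 2⌋₊ with hB
  have key : -(2 * dl v 1 - dl v 2) * (1 - Real.cos α) +
      (9 / 20 * α ^ 2 * (√(n + 1) - √((min 2 (n + 1) : ℕ) : ℝ)) -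
        662 / 100 * v ^ 5 * (B + 2 - A)) ≤
      2 * (1 - Real.cos α) * (√(2 * Real.pi) * (TT v α).re) + 2 * (√(2 * Real.pi) * 0) := by
    refine ge_of_tendsto (t1.add t2) ((eventually_ge_atTop n).mono fun M hM => ?_)
    have e1 := sum_ge hv hv1 h1 M
    have e2 := dn (M + 1)
    have e3 := dn (M + 2)
    have hAB : A ≤ B := Nat.floor_le_floor (by gcongr; norm_num)
    have e4 : ((min (max (M + 2) A) (B + 2) : ℕ) : ℝ) ≤ ((B + 2 : ℕ) : ℝ) := by
      exact_mod_cast (by omega)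
    have e5 : (A : ℝ) ≤ ((min (max 2 A) (B + 2) : ℕ) : ℝ) := by exact_mod_cast (by omega)
    simp only [Function.comp, ab_eq]
    unfold WW at e1
    rw [← hn, ← hA, ← hB, min_eq_right (by omega : n + 1 ≤ M + 2)] at e1
    generalize ((min (max (M + 2) A) (B + 2) : ℕ) : ℝ) = X at *
    generalize ((min (max 2 A) (B + 2) : ℕ) : ℝ) = Y at *
    generalize ((min 2 (n + 1) : ℕ) : ℝ) = Z at *
    push_cast at e1 e2 e3 e4 ⊢
    have e6 := mul_nonneg e2 (sub_nonneg.2 (Real.cos_le_one ((M + 2) * α)))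
    have e7 := mul_nonneg e3 (neg_le_iff_add_nonneg.1 (Real.neg_one_le_cos ((M + 1) * α)))
    have e8 := mul_le_mul_of_nonneg_left (by linarith : X - Y ≤ B + 2 - A) (pow_pos hv 5).le
    linarith
  have hd : 2 * dl v 1 - dl v 2 ≤ 133 / 100 := by
    have a1 : om (1 * v ^ 2) ≤ Real.exp (21 / 2000) :=
      Real.exp_le_exp.2 (by nlinarith [pow_pos hh 3])
    have a2 := Real.exp_bound_div_one_sub_of_interval' (x := 21 / 2000) (by norm_num) (by norm_num)
    have a3 : 1 ≤ om (2 * v ^ 2) := Real.one_le_exp (by nlinarith [mul_pos hh hh])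
    have a4 : 7 / 10 ≤ (√2)⁻¹ := by
      rw [le_inv_comm₀ (by norm_num) (by positivity)]
      exact Real.sqrt_le_iff.2 ⟨by norm_num, by norm_num⟩
    simp only [dl, Real.sqrt_one, inv_one, mul_one]
    norm_num at a2
    nlinarith
  have hN : 662 / 100 * v ^ 5 * (B + 2 - A) ≤ 1675 / 100 * v ^ 3 := by
    have a1 : (B : ℝ) ≤ 4 / v ^ 2 := Nat.floor_le (by positivity)
    have a2 : 3 / 2 / v ^ 2 < A + 1 := Nat.lt_floor_add_one _
    rw [le_div_iff₀ hh] at a1
    rw [div_lt_iff₀ hh] at a2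
    have a3 : v ^ 2 * (B + 2 - A) ≤ 253 / 100 := by nlinarith
    have a4 := mul_le_mul_of_nonneg_left a3 (pow_pos hv 3).le
    nlinarith [pow_pos hv 3]
  have hP : -(192 / 100) * (1 - Real.cos α) ≤
      9 / 20 * α ^ 2 * (√(n + 1) - √((min 2 (n + 1) : ℕ) : ℝ)) - 1675 / 100 * v ^ 3 ∧
      0 < 1 - Real.cos α := by
    rcases le_total α 2 with h | h
    · have a1 := one_sub_cos ha.le h
      have a2 : √((min 2 (n + 1) : ℕ) : ℝ) ≤ 142 / 100 := by
        refine Real.sqrt_le_iff.2 ⟨by norm_num, le_trans (b := 2) ?_ (by norm_num)⟩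
        exact_mod_cast min_le_left _ _
      have a3 : 2 / α < n + 1 := Nat.lt_floor_add_one _
      rw [div_lt_iff₀ ha] at a3
      have a4 : 1675 / 100 * v ^ 3 ≤ 9 / 20 * α ^ 2 * √(n + 1) := by
        refine (pow_le_pow_iff_left₀ (by positivity) (by positivity) two_ne_zero).1 ?_
        have b1 : (89 / 10 * v ^ 2) ^ 3 ≤ α ^ 3 := by gcongr
        have b2 := mul_le_mul_of_nonneg_left a3.le (pow_pos ha 3).le
        rw [mul_pow (9 / 20 * α ^ 2), Real.sq_sqrt (by positivity)]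
        nlinarith [pow_pos hv 6]
      have a5 := mul_le_mul_of_nonneg_left a2 (sq_nonneg α)
      exact ⟨by nlinarith, by nlinarith [pow_pos ha 2]⟩
    · have a1 := one_sub_cos (x := 2) (by norm_num) le_rfl
      have a2 := Real.cos_le_cos_of_nonneg_of_le_pi (by norm_num) h2 h
      have a3 : √((min 2 (n + 1) : ℕ) : ℝ) ≤ √(n + 1) :=
        Real.sqrt_le_sqrt (by exact_mod_cast min_le_right _ _)
      have a4 : v ^ 3 ≤ (1 / 10) ^ 3 := by gcongr
      have a5 := mul_nonneg (sq_nonneg α) (sub_nonneg.2 a3)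
      exact ⟨by nlinarith, by linarith⟩
  have hq : 5 / 2 ≤ √(2 * Real.pi) := Real.le_sqrt_of_sq_le (by linarith [Real.pi_gt_d2])
  by_contra hc
  have a1 : √(2 * Real.pi) * (TT v α).re ≤ -(5 / 3) := by nlinarith
  have a2 := mul_le_mul_of_nonneg_left a1 hP.2.le
  have a3 := mul_le_mul_of_nonneg_left hd hP.2.le
  nlinarith [hP.1, hP.2]

end Pool.Agent.MP_39ed1d_co.H15
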